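import Pool.Agent.W662.KKS.Stmts

/-!
# Project KKS: small similarities preserve closeness
-/

set_option autoImplicit false
set_option linter.unusedSectionVars false

open scoped InnerProductSpace
open Pool.Agent.Helper278 Pool.Agent.W662.KKS

namespace Pool.Agent.W397.KKS

variable {H : Type} [NormedAddCommGroup H] [InnerProductSpace ℂ H] [CompleteSpace H]

lemma norm_inv_le {w : (H →L[ℂ] H)ˣ} (hw : ‖(w : H →L[ℂ] H) - 1‖ ≤ 1 / 10) :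
    ‖((w⁻¹ : (H →L[ℂ] H)ˣ) : H →L[ℂ] H)‖ ≤ 10 / 9 := by
  set W : H →L[ℂ] H := ((w⁻¹ : (H →L[ℂ] H)ˣ) : H →L[ℂ] H) with hW
  have h1 : W = 1 - ((w : H →L[ℂ] H) - 1) * W := by
    have : (w : H →L[ℂ] H) * W = 1 := w.mul_inv
    rw [sub_mul, this, one_mul]
    abel
  have h2 : ‖W‖ ≤ 1 + 1 / 10 * ‖W‖ := by
    calc ‖W‖ = ‖1 - ((w : H →L[ℂ] H) - 1) * W‖ := by rw [← h1]
      _ ≤ ‖(1 : H →L[ℂ] H)‖ + ‖((w : H →L[ℂ] H) - 1) * W‖ := norm_sub_le _ _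
      _ ≤ 1 + ‖(w : H →L[ℂ] H) - 1‖ * ‖W‖ := by
        apply add_le_add ContinuousLinearMap.norm_id_le (norm_mul_le _ _)
      _ ≤ _ := by
        have := mul_le_mul_of_nonneg_right hw (norm_nonneg W)
        linarith
  linarith

lemma norm_w_le {w : (H →L[ℂ] H)ˣ} (hw : ‖(w : H →L[ℂ] H) - 1‖ ≤ 1 / 10) :
    ‖(w : H →L[ℂ] H)‖ ≤ 11 / 10 := by
  have h1 : (w : H →L[ℂ] H) = ((w : H →L[ℂ] H) - 1) + 1 := by abel
  rw [h1]
  have h2 : ‖(1 : H →L[ℂ] H)‖ ≤ 1 := ContinuousLinearMap.norm_id_le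
  have := norm_add_le ((w : H →L[ℂ] H) - 1) (1 : H →L[ℂ] H)
  linarith

lemma norm_inv_sub_le {w : (H →L[ℂ] H)ˣ} {η : ℝ} (hw : ‖(w : H →L[ℂ] H) - 1‖ ≤ η)
    (hη : η ≤ 1 / 10) :
    ‖((w⁻¹ : (H →L[ℂ] H)ˣ) : H →L[ℂ] H) - 1‖ ≤ 10 / 9 * η := by
  have h0 := norm_inv_le (hw.trans hη)
  set W : H →L[ℂ] H := ((w⁻¹ : (H →L[ℂ] H)ˣ) : H →L[ℂ] H) with hW
  have h1 : W - 1 = -(W * ((w : H →L[ℂ] H) - 1)) := by
    have : W * (w : H →L[ℂ] H) = 1 := w.inv_mul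
    rw [mul_sub, this, mul_one]
    abel
  rw [h1, norm_neg]
  exact (norm_mul_le _ _).trans (mul_le_mul h0 hw (norm_nonneg _) (by norm_num))

lemma conj_left_le {w : (H →L[ℂ] H)ˣ} {η : ℝ} (hw : ‖(w : H →L[ℂ] H) - 1‖ ≤ η)
    (hη : η ≤ 1 / 10) (x : H →L[ℂ] H) :
    ‖x - ((w⁻¹ : (H →L[ℂ] H)ˣ) : H →L[ℂ] H) * x * (w : H →L[ℂ] H)‖ ≤ 3 * η * ‖x‖ := by
  have h0 := norm_inv_le (hw.trans hη)
  have h1 := norm_inv_sub_le hw hη
  have hη0 : 0 ≤ η := (norm_nonneg _).trans hw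
  set W : H →L[ℂ] H := ((w⁻¹ : (H →L[ℂ] H)ˣ) : H →L[ℂ] H) with hW
  have e : x - W * x * (w : H →L[ℂ] H) = -(W * x * ((w : H →L[ℂ] H) - 1)) - (W - 1) * x := by
    noncomm_ring
  rw [e]
  have hx := norm_nonneg x
  have h2 : ‖W * x * ((w : H →L[ℂ] H) - 1)‖ ≤ 10 / 9 * ‖x‖ * η := by
    refine (norm_mul_le _ _).trans (mul_le_mul ((norm_mul_le _ _).trans ?_) hw (norm_nonneg _)
      (by positivity))
    exact mul_le_mul_of_nonneg_right h0 hx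
  have h3 : ‖(W - 1) * x‖ ≤ 10 / 9 * η * ‖x‖ :=
    (norm_mul_le _ _).trans (mul_le_mul_of_nonneg_right h1 hx)
  have h4 := norm_sub_le (-(W * x * ((w : H →L[ℂ] H) - 1))) ((W - 1) * x)
  rw [norm_neg] at h4
  nlinarith [mul_nonneg hη0 hx]

lemma conj_right_le {w : (H →L[ℂ] H)ˣ} {η : ℝ} (hw : ‖(w : H →L[ℂ] H) - 1‖ ≤ η)
    (hη : η ≤ 1 / 10) (x : H →L[ℂ] H) :
    ‖x - (w : H →L[ℂ] H) * x * ((w⁻¹ : (H →L[ℂ] H)ˣ) : H →L[ℂ] H)‖ ≤ 3 * η * ‖x‖ := by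
  have h0 := norm_w_le (hw.trans hη)
  have h1 := norm_inv_sub_le hw hη
  have hη0 : 0 ≤ η := (norm_nonneg _).trans hw
  set W : H →L[ℂ] H := ((w⁻¹ : (H →L[ℂ] H)ˣ) : H →L[ℂ] H) with hW
  have e : x - (w : H →L[ℂ] H) * x * W =
      -((w : H →L[ℂ] H) * x * (W - 1)) - ((w : H →L[ℂ] H) - 1) * x := by
    noncomm_ring
  rw [e]
  have hx := norm_nonneg x
  have h2 : ‖(w : H →L[ℂ] H) * x * (W - 1)‖ ≤ 11 / 10 * ‖x‖ * (10 / 9 * η) := by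
    refine (norm_mul_le _ _).trans (mul_le_mul ((norm_mul_le _ _).trans ?_) h1 (norm_nonneg _)
      (by positivity))
    exact mul_le_mul_of_nonneg_right h0 hx
  have h3 : ‖((w : H →L[ℂ] H) - 1) * x‖ ≤ η * ‖x‖ :=
    (norm_mul_le _ _).trans (mul_le_mul_of_nonneg_right hw hx)
  have h4 := norm_sub_le (-((w : H →L[ℂ] H) * x * (W - 1))) (((w : H →L[ℂ] H) - 1) * x)
  rw [norm_neg] at h4
  nlinarith [mul_nonneg hη0 hx]

lemma near_conj {w : (H →L[ℂ] H)ˣ} {η γ : ℝ} (hw : ‖(w : H →L[ℂ] H) - 1‖ ≤ η)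
    (hη : η ≤ 1 / 10) (hγ : 0 ≤ γ) {A : Set (H →L[ℂ] H)} {N : VonNeumannAlgebra H}
    (h : Near A (N : Set (H →L[ℂ] H)) γ) : Near A (conj w N) (10 * (γ + η)) := by
  intro x hx
  obtain ⟨y, hy, hxy⟩ := h x hx
  have h0 := norm_inv_le (hw.trans hη)
  have h1 := norm_w_le (hw.trans hη)
  have h2 := conj_left_le hw hη x
  have hη0 : 0 ≤ η := (norm_nonneg _).trans hw
  have hwW : (w : H →L[ℂ] H) * ((w⁻¹ : (H →L[ℂ] H)ˣ) : H →L[ℂ] H) = 1 := w.mul_inv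
  set W : H →L[ℂ] H := ((w⁻¹ : (H →L[ℂ] H)ˣ) : H →L[ℂ] H) with hW
  refine ⟨W * y * (w : H →L[ℂ] H), ?_, ?_⟩
  · show (w : H →L[ℂ] H) * (W * y * (w : H →L[ℂ] H)) * W ∈ N
    have : (w : H →L[ℂ] H) * (W * y * (w : H →L[ℂ] H)) * W = y := by
      calc (w : H →L[ℂ] H) * (W * y * (w : H →L[ℂ] H)) * W
          = ((w : H →L[ℂ] H) * W) * y * ((w : H →L[ℂ] H) * W) := by noncomm_ring
        _ = y := by rw [hwW, one_mul, mul_one]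
    rw [this]
    exact hy
  · have e : x - W * y * (w : H →L[ℂ] H) =
        (x - W * x * (w : H →L[ℂ] H)) + W * (x - y) * (w : H →L[ℂ] H) := by
      noncomm_ring
    rw [e]
    have hx := norm_nonneg x
    have h3 : ‖W * (x - y) * (w : H →L[ℂ] H)‖ ≤ 10 / 9 * (γ * ‖x‖) * (11 / 10) := by
      refine (norm_mul_le _ _).trans (mul_le_mul ((norm_mul_le _ _).trans ?_) h1 (norm_nonneg _)
        (by positivity))
      exact mul_le_mul h0 hxy (norm_nonneg _) (by norm_num)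
    have h4 := norm_add_le (x - W * x * (w : H →L[ℂ] H)) (W * (x - y) * (w : H →L[ℂ] H))
    nlinarith [mul_nonneg hη0 hx, mul_nonneg hγ hx]

lemma near_conj' {w : (H →L[ℂ] H)ˣ} {η γ : ℝ} (hw : ‖(w : H →L[ℂ] H) - 1‖ ≤ η)
    (hη : η ≤ 1 / 10) (hγ : 0 ≤ γ) {A : Set (H →L[ℂ] H)} {N : VonNeumannAlgebra H}
    (h : Near (N : Set (H →L[ℂ] H)) A γ) : Near (conj w N) A (10 * (γ + η)) := by
  intro y hy
  have h0 := norm_inv_le (hw.trans hη)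
  have h1 := norm_w_le (hw.trans hη)
  have h2 := conj_right_le hw hη y
  have hη0 : 0 ≤ η := (norm_nonneg _).trans hw
  obtain ⟨m, hm, hnm⟩ := h _ hy
  set W : H →L[ℂ] H := ((w⁻¹ : (H →L[ℂ] H)ˣ) : H →L[ℂ] H) with hW
  refine ⟨m, hm, ?_⟩
  have hy0 := norm_nonneg y
  have h3 : ‖(w : H →L[ℂ] H) * y * W‖ ≤ 11 / 10 * ‖y‖ * (10 / 9) := by
    refine (norm_mul_le _ _).trans (mul_le_mul ((norm_mul_le _ _).trans ?_) h0 (norm_nonneg _)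
      (by positivity))
    exact mul_le_mul_of_nonneg_right h1 hy0
  have e : y - m = (y - (w : H →L[ℂ] H) * y * W) + ((w : H →L[ℂ] H) * y * W - m) := by abel
  rw [e]
  have h4 := norm_add_le (y - (w : H →L[ℂ] H) * y * W) ((w : H →L[ℂ] H) * y * W - m)
  have h5 := mul_le_mul_of_nonneg_left h3 hγ
  nlinarith [mul_nonneg hη0 hy0, mul_nonneg hγ hy0]

lemma conj_one (w : (H →L[ℂ] H)ˣ) (N : VonNeumannAlgebra H) :
    (1 : H →L[ℂ] H) ∈ conj w N := by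
  show (w : H →L[ℂ] H) * 1 * ((w⁻¹ : (H →L[ℂ] H)ˣ) : H →L[ℂ] H) ∈ N
  rw [mul_one, w.mul_inv]
  exact N.toStarSubalgebra.one_mem

lemma conj_add {w : (H →L[ℂ] H)ˣ} {N : VonNeumannAlgebra H} {y z : H →L[ℂ] H}
    (hy : y ∈ conj w N) (hz : z ∈ conj w N) : y + z ∈ conj w N := by
  show (w : H →L[ℂ] H) * (y + z) * ((w⁻¹ : (H →L[ℂ] H)ˣ) : H →L[ℂ] H) ∈ N
  rw [mul_add, add_mul]
  exact N.toStarSubalgebra.add_mem hy hz

lemma conj_smul {w : (H →L[ℂ] H)ˣ} {N : VonNeumannAlgebra H} (c : ℂ) {y : H →L[ℂ] H}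
    (hy : y ∈ conj w N) : c • y ∈ conj w N := by
  show (w : H →L[ℂ] H) * (c • y) * ((w⁻¹ : (H →L[ℂ] H)ˣ) : H →L[ℂ] H) ∈ N
  rw [mul_smul_comm, smul_mul_assoc]
  exact N.toStarSubalgebra.smul_mem hy c

lemma conj_mul {w : (H →L[ℂ] H)ˣ} {N : VonNeumannAlgebra H} {y z : H →L[ℂ] H}
    (hy : y ∈ conj w N) (hz : z ∈ conj w N) : y * z ∈ conj w N := by
  show (w : H →L[ℂ] H) * (y * z) * ((w⁻¹ : (H →L[ℂ] H)ˣ) : H →L[ℂ] H) ∈ N
  have hWw : ((w⁻¹ : (H →L[ℂ] H)ˣ) : H →L[ℂ] H) * (w : H →L[ℂ] H) = 1 := w.inv_mul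
  have e : (w : H →L[ℂ] H) * (y * z) * ((w⁻¹ : (H →L[ℂ] H)ˣ) : H →L[ℂ] H) =
      ((w : H →L[ℂ] H) * y * ((w⁻¹ : (H →L[ℂ] H)ˣ) : H →L[ℂ] H)) *
        ((w : H →L[ℂ] H) * z * ((w⁻¹ : (H →L[ℂ] H)ˣ) : H →L[ℂ] H)) := by
    calc (w : H →L[ℂ] H) * (y * z) * ((w⁻¹ : (H →L[ℂ] H)ˣ) : H →L[ℂ] H)
        = (w : H →L[ℂ] H) * y * 1 * z * ((w⁻¹ : (H →L[ℂ] H)ˣ) : H →L[ℂ] H) := by noncomm_ring
      _ = _ := by rw [← hWw]; noncomm_ring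
  rw [e]
  exact N.toStarSubalgebra.mul_mem hy hz

lemma conj_comm {w : (H →L[ℂ] H)ˣ} {N : VonNeumannAlgebra H} {y q : H →L[ℂ] H}
    (hy : y ∈ conj w N) (hq : q ∈ conj w N.commutant) : y * q = q * y := by
  have h := VonNeumannAlgebra.mem_commutant_iff.1 hq _ hy
  have hWw : ((w⁻¹ : (H →L[ℂ] H)ˣ) : H →L[ℂ] H) * (w : H →L[ℂ] H) = 1 := w.inv_mul
  set W : H →L[ℂ] H := ((w⁻¹ : (H →L[ℂ] H)ˣ) : H →L[ℂ] H) with hW
  have e : ∀ a b : H →L[ℂ] H, W * (((w : H →L[ℂ] H) * a * W) * ((w : H →L[ℂ] H) * b * W)) *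
      (w : H →L[ℂ] H) = a * b := by
    intro a b
    calc W * (((w : H →L[ℂ] H) * a * W) * ((w : H →L[ℂ] H) * b * W)) * (w : H →L[ℂ] H)
        = (W * (w : H →L[ℂ] H)) * a * (W * (w : H →L[ℂ] H)) * b * (W * (w : H →L[ℂ] H)) := by
          noncomm_ring
      _ = a * b := by rw [hWw]; noncomm_ring
  rw [← e y q, ← e q y, h]

/-- KPW. -/
theorem kpw (h : S_RNW) : S_KPW := by
  refine ⟨10, by norm_num, ?_⟩
  intro H _ _ _ M N ξ ρ G w γ η hγ0 _ hw hη h1 h2 h3 h4 hG hρ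
  obtain ⟨hr1, hr2⟩ := h H N w ξ (hw.trans hη)
  exact
    { nMP := near_conj hw hη hγ0 h1
      nPM := near_conj' hw hη hγ0 h2
      nM'Q := near_conj hw hη hγ0 h3
      nQM' := near_conj' hw hη hγ0 h4
      comm := fun y hy q hq => conj_comm hy hq
      oneP := conj_one w N
      addP := fun y hy z hz => conj_add hy hz
      mulP := fun y hy z hz => conj_mul hy hz
      smulP := fun c y hy => conj_smul c hy
      oneQ := conj_one w N.commutant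
      addQ := fun y hy z hz => conj_add hy hz
      mulQ := fun y hy z hz => conj_mul hy hz
      smulQ := fun c y hy => conj_smul c hy
      rnP := hr1
      rnQ := hr2
      gP := hG
      gQ := hρ }

end Pool.Agent.W397.KKS
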