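import Pool.Agent.W662.KKS.Stmts3
import Pool.Agent.W397.KKS.KPW
import Pool.Agent.W646.KKS.RNW
import Pool.Agent.W696.KKS.Rna

/-!
# Project KKS, part 2: small similarities preserve closeness, group version
-/

set_option autoImplicit false

open scoped InnerProductSpace
open Pool.Agent.Helper278 Pool.Agent.W662.KKS

namespace Pool.Agent.W397.KKS

/-- UKPW. -/
theorem ukpw : S_UKPW := by
  refine ⟨10, by norm_num, ?_⟩
  intro H _ _ _ M N ξ ρ U w γ η hγ0 _ hw hη h1 h2 h3 h4 hG hρ
  obtain ⟨hr1, hr2⟩ := Pool.Agent.W646.KKS.rnw Pool.Agent.W696.KKS.rna H N w ξ (hw.trans hη)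
  exact
    { nMP := near_conj hw hη hγ0 h1
      nPM := near_conj' hw hη hγ0 h2
      nM'Q := near_conj hw hη hγ0 h3
      nQM' := near_conj' hw hη hγ0 h4
      comm := fun y hy q hq => conj_comm hy hq
      oneP := conj_one w N
      addP := fun y hy z hz => conj_add hy hz
      mulP := fun y hy z hz => conj_mul hy hz
      smulP := fun c y hy => conj_smul c hy
      oneQ := conj_one w N.commutant
      addQ := fun y hy z hz => conj_add hy hz
      mulQ := fun y hy z hz => conj_mul hy hz
      smulQ := fun c y hy => conj_smul c hy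
      rnP := hr1
      rnQ := hr2
      gP := hG
      gQ := hρ }

end Pool.Agent.W397.KKS
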